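import Pool.Agent.TH678.EL.Defs
import Pool.Agent.TH93.GL.Defs

/-!
# End-of-Line with short names, relative to an oracle

(Continues `Pool.Agent.H620R2.Gauge.Defs`, `Pool.Agent.TH678.EL.Defs` and `Pool.Agent.TH93.GL.Defs`.)
-/

set_option autoImplicit false

namespace Pool.Agent.TH93.NL

open Pool.Agent.NPC Pool.Agent.H620R2.Gauge Pool.Agent.TH678.EL

/-- The walk from `0` in the instance `x`: the vertex after `i` steps. The vertices have `n` bits. -/
def walk (S : List Bool → List Bool) (n : ℕ) (x : List Bool) (i : ℕ) : List Bool :=
  (fun v => S (pairBits v x))^[i] (zero n)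

/-- End-of-Line with vertices of `h |x|` bits has a polynomial-time solver relative to `A`. -/
def EasyNames (h : ℕ → ℕ) (A : Oracle) : Prop :=
  ∀ S P : List Bool → List Bool, IsFP A S → IsFP A P →
    ∃ f : List Bool → List Bool, IsFP A f ∧ ∀ x : List Bool,
      Promised S P (h x.length) x → Solves S P (h x.length) x (f x)

/-- Relative to `A` some polynomial-time function solves the instances of End-of-Line with vertices
of `r |x|` bits in which the walk from `0` arrives at a solution after at most `2 ^ h |x|` steps. -/
def EasyWalks (r h : ℕ → ℕ) (A : Oracle) : Prop :=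
  ∀ S P : List Bool → List Bool, IsFP A S → IsFP A P →
    ∃ f : List Bool → List Bool, IsFP A f ∧ ∀ x : List Bool,
      Promised S P (r x.length) x →
      (∃ i ≤ 2 ^ h x.length, Solves S P (r x.length) x (walk S (r x.length) x i)) →
        Solves S P (r x.length) x (f x)

/-- Relative to `A` some polynomial-time function with polynomial advice solves the instances of
End-of-Line with vertices of `h |x|` bits whose graph is a single line on which the position of a
vertex can be read off. -/
def EasyLines (h : ℕ → ℕ) (A : Oracle) : Prop :=
  ∀ S P : List Bool → List Bool, IsFP A S → IsFP A P →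
    ∃ (f : List Bool → List Bool) (a : ℕ → List Bool) (p : Polynomial ℕ), IsFP A f ∧
      (∀ n, (a n).length ≤ p.eval n) ∧ ∀ x : List Bool,
        SingleLine S P (h x.length) x →
          Solves S P (h x.length) x (f (pairBits x (a x.length)))

end Pool.Agent.TH93.NL
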