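import Pool.Agent.TH93.NL.Pad
import Pool.Agent.TH678.EL.Stage

/-!
# No algorithm finds the labels of the ends of many lines
-/

set_option autoImplicit false

namespace Pool.Agent.TH93.NL

open Pool.Agent.NPC Pool.Agent.H620R2.Gauge Pool.Agent.H622R2 Pool.Agent.TH678.EL Finset
open Pool.Agent.TH678.PC (card_adv)

section

variable {A : Oracle} {m K : ℕ} {c : ℕ → List Bool}

/-- with the oracle of the lines `x` the algorithm finds the label of the end of the line number
`k` -/
def Rl (A : Oracle) (c : ℕ → List Bool) (M : Alg) (P : ℕ) (x : Fin K → Fin (P + 1) → Fin (2 ^ m))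
    (z : List Bool) (k : Fin K) : Prop :=
  ∃ w, M.run (chg A m K c (labK x) (fun _ => P + 1)) z P [] = some w ∧
    lbl m w = labF (x k) (P + 1)

/-- the algorithm asks a question about the region `k` -/
def Tc (A : Oracle) (c : ℕ → List Bool) (M : Alg) (P : ℕ) (x : Fin K → Fin (P + 1) → Fin (2 ^ m))
    (z : List Bool) (k : Fin K) : Prop :=
  ∃ q ∈ qset M (chg A m K c (labK x) (fun _ => P + 1)) z P [], rgn m q = k.val

open Classical in
/-- one line: few labels are good for the algorithm -/
theorem one_line (M : Alg) (z : List Bool) {P : ℕ} (x : Fin K → Fin (P + 1) → Fin (2 ^ m))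
    (k : Fin K) :
    ((univ.filter fun μ : Fin (P + 1) → Fin (2 ^ m) =>
      Rl A c M P (Function.update x k μ) z k).card : ℝ) ≤
      ((P + 1) ^ 2 / 2 ^ m) * Fintype.card (Fin (P + 1) → Fin (2 ^ m)) := by
  set X : (Fin (P + 1) → Fin (2 ^ m)) → ℕ → Oracle := fun μ i =>
    chg A m K c (labK (Function.update x k μ)) (Function.update (fun _ => P + 1) k.val i) with hX
  set Seen : Fin (P + 1) → (Fin (P + 1) → Fin (2 ^ m)) → Finset (Fin (2 ^ m)) := fun i μ =>
    univ.filter (fun r => (∃ q ∈ qset M (X μ i.val) z P [], lbl m q = r.val) ∨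
      ∃ w, M.run (X μ i.val) z P [] = some w ∧ lbl m w = r.val) with hSeen
  have hlk : ∀ μ : Fin (P + 1) → Fin (2 ^ m), labK (Function.update x k μ) k.val = labF μ := by
    intro μ
    rw [labK_eq, Function.update_self]
  have h1 := line_bound (V := Fin (2 ^ m)) (L := P + 1) (s := P + 1) (Seen := Seen)
    (Rt := fun μ => Rl A c M P (Function.update x k μ) z k) ?_ ?_ ?_
  · rw [Fintype.card_fin] at h1
    have h2 : (0 : ℝ) < 2 ^ m := by positivity
    rw [div_mul_eq_mul_div, le_div_iff₀ h2]
    push_cast at h1 ⊢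
    refine h1.trans (le_of_eq ?_)
    ring
  · -- few labels are seen
    intro i μ
    set F : Finset ℕ := (qset M (X μ i.val) z P []).image (lbl m) ∪
      (if h : ∃ w, M.run (X μ i.val) z P [] = some w then {lbl m h.choose} else ∅) with hF
    have hc1 : (Seen i μ).card ≤ F.card := by
      apply Finset.card_le_card_of_injOn (fun r => r.val)
      · intro r hr
        rw [mem_coe, hSeen, mem_filter] at hr
        rw [hF, mem_coe, mem_union]
        rcases hr.2 with ⟨q, hq, h⟩ | ⟨w, hw, h⟩
        · left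
          exact mem_image.2 ⟨q, hq, h⟩
        · right
          have hex : ∃ w, M.run (X μ i.val) z P [] = some w := ⟨w, hw⟩
          rw [dif_pos hex, mem_singleton]
          have h3 : hex.choose = w := Option.some.inj (hex.choose_spec.symm.trans hw)
          rw [h3]
          exact h.symm
      · intro r _ r' _ h
        exact Fin.ext h
    refine hc1.trans ((card_union_le _ _).trans ?_)
    have h3 := (card_image_le (s := qset M (X μ i.val) z P []) (f := lbl m)).trans
      (qset_card M _ z P [])
    have h4 : (if h : ∃ w, M.run (X μ i.val) z P [] = some w then {lbl m h.choose}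
        else (∅ : Finset ℕ)).card ≤ 1 := by
      split_ifs
      · rw [card_singleton]
      · rw [card_empty]
        exact Nat.zero_le _
    omega
  · -- the dependence
    intro i μ ν hμ
    have h3 : X μ i.val = X ν i.val := by
      rw [hX]
      apply chg_trunc
      intro k' j hj
      by_cases hk : k' = k.val
      · subst hk
        rw [Function.update_self] at hj
        rw [hlk, hlk]
        unfold labF
        by_cases h : 1 ≤ j ∧ j ≤ P + 1
        · rw [dif_pos h, dif_pos h]
          rw [hμ ⟨j - 1, by omega⟩ (by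
            rw [Fin.lt_def]
            dsimp only
            omega)]
        · rw [dif_neg h, dif_neg h]
      · unfold labK
        by_cases h : k' < K
        · rw [dif_pos h, dif_pos h]
          have hne : (⟨k', h⟩ : Fin K) ≠ k := fun e => hk (congrArg Fin.val e)
          rw [Function.update_of_ne hne, Function.update_of_ne hne]
        · rw [dif_neg h, dif_neg h]
    rw [hSeen]
    simp only [h3]
  · -- a good line is seen
    intro μ hμ
    unfold Rl at hμ
    rw [Function.update_self] at hμ
    obtain ⟨wd, hμ, hwd⟩ := hμ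
    by_contra hno
    push Not at hno
    have hun : ∀ i : Fin (P + 1), (∀ q ∈ qset M (X μ i.val) z P [], lbl m q ≠ (μ i).val) ∧
        ∀ w, M.run (X μ i.val) z P [] = some w → lbl m w ≠ (μ i).val := by
      intro i
      have h3 := hno i
      rw [hSeen, mem_filter, not_and] at h3
      have h4 := h3 (mem_univ _)
      push Not at h4
      exact h4
    have h3 := line_run (M := M) (x := z) (X := X μ) (P := P)
      (B := fun i => {q | rgn m q = k.val ∧ psn m q = i ∧ lbl m q = labF μ i}) ?_ ?_
    · have h4 : X μ (P + 1) = chg A m K c (labK (Function.update x k μ)) (fun _ => P + 1) := by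
        rw [hX]
        dsimp only
        rw [Function.update_eq_self_iff.2 rfl]
      rw [h4, hμ] at h3
      have h5 := (hun ⟨P, Nat.lt_succ_self P⟩).2 _ h3.symm
      apply h5
      rw [hwd]
      exact labF_succ μ ⟨P, Nat.lt_succ_self P⟩
    · intro i q hq hq'
      rw [hX]
      apply chg_step
      · rw [hlk]
        exact hq
      · rw [hlk]
        exact hq'
    · intro i hi q hq hmem
      have h5 := (hun ⟨i, by omega⟩).1 q hq
      apply h5
      rw [hmem.2.2]
      exact labF_succ μ ⟨i, by omega⟩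

open Classical in
/-- many lines: hardly any labels are good for the algorithm -/
theorem many_lines (M : Alg) (z : ℕ → List Bool) {P r : ℕ} (hK : (2 * P + 1) * r ≤ K) :
    ((univ.filter fun x : Fin K → Fin (P + 1) → Fin (2 ^ m) => ∀ k : Fin K,
      Rl A c M P x (z k.val) k).card : ℝ) ≤
      (K * ((P + 1) ^ 2 / 2 ^ m)) ^ r *
        Fintype.card (Fin K → Fin (P + 1) → Fin (2 ^ m)) := by
  have h1 := all_right (κ := Fin K) (V := Fin (P + 1) → Fin (2 ^ m)) (P := P) (r := r)
    (T := fun x k => univ.filter (fun k' : Fin K => Tc A c M P x (z k.val) k'))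
    (R := fun k x => Rl A c M P x (z k.val) k)
    (ε := (P + 1) ^ 2 / 2 ^ m) (by positivity) (by rw [Fintype.card_fin]; exact hK) ?_ ?_ ?_
    (fun _ => ⟨0, Nat.two_pow_pos m⟩)
  · rw [Fintype.card_fin] at h1
    convert h1
  · intro x k
    refine le_trans ?_ (qset_card M (chg A m K c (labK x) (fun _ => P + 1)) (z k.val) P [])
    refine le_trans ?_ (card_image_le (f := rgn m))
    apply Finset.card_le_card_of_injOn (fun r => r.val)
    · intro k' hk'
      rw [mem_coe, mem_filter] at hk'
      obtain ⟨q, hq, h⟩ := hk'.2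
      rw [mem_coe, mem_image]
      exact ⟨q, hq, h⟩
    · intro r _ r' _ h
      exact Fin.ext h
  · intro k x y hxy h
    have h2 : ∀ q ∈ qset M (chg A m K c (labK x) (fun _ => P + 1)) (z k.val) P [],
        chg A m K c (labK x) (fun _ => P + 1) q = chg A m K c (labK y) (fun _ => P + 1) q := by
      intro q hq
      apply chg_congr
      intro hr
      refine ⟨?_, rfl⟩
      have h3 := hxy ⟨rgn m q, hr⟩ (Or.inl (mem_filter.2 ⟨mem_univ _, q, hq, rfl⟩))
      have e1 := labK_eq x ⟨rgn m q, hr⟩
      have e2 := labK_eq y ⟨rgn m q, hr⟩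
      dsimp only at e1 e2
      rw [e1, e2, h3]
    unfold Rl at h ⊢
    obtain ⟨wd, h, hwd⟩ := h
    exact ⟨wd, by rw [run_agree P [] h2, h], by rw [hwd, hxy k (Or.inr rfl)]⟩
  · intro k x
    exact one_line (A := A) (c := c) M (z k.val) x k

end

open Classical in
/-- **Some labels are bad for every advice.** -/
theorem exists_x (M : Alg) (A : Oracle) (c : ℕ → List Bool) {m K P l : ℕ}
    (z : ℕ → List Bool → List Bool)
    (hK : (2 * P + 1) * (l + 2) ≤ K) (hm : 2 * K * (P + 1) ^ 2 ≤ 2 ^ m) :
    ∃ x : Fin K → Fin (P + 1) → Fin (2 ^ m), ∀ α : List Bool, α.length ≤ l →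
      ∃ k : Fin K, ¬ Rl A c M P x (z k.val α) k := by
  by_contra hno
  push Not at hno
  have h1 : ((univ : Finset (Fin K → Fin (P + 1) → Fin (2 ^ m))).card : ℝ) ≤
      ∑ α ∈ (range (l + 1)).biUnion strsOf, ((univ.filter fun x : Fin K → Fin (P + 1) →
        Fin (2 ^ m) => ∀ k : Fin K, Rl A c M P x (z k.val α) k).card : ℝ) := by
    rw [← Nat.cast_sum, Nat.cast_le]
    refine le_trans (card_le_card ?_) card_biUnion_le
    intro x _
    obtain ⟨α, hα, h⟩ := hno x
    rw [mem_biUnion]
    refine ⟨α, ?_, mem_filter.2 ⟨mem_univ _, h⟩⟩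
    rw [mem_biUnion]
    exact ⟨α.length, mem_range.2 (by omega), mem_strsOf α⟩
  have h2 : ∀ α ∈ (range (l + 1)).biUnion strsOf, ((univ.filter fun x : Fin K → Fin (P + 1) →
        Fin (2 ^ m) => ∀ k : Fin K, Rl A c M P x (z k.val α) k).card : ℝ) ≤
      (1 / 2) ^ (l + 2) * Fintype.card (Fin K → Fin (P + 1) → Fin (2 ^ m)) := by
    intro α _
    refine (many_lines (A := A) (c := c) (m := m) M (fun k => z k α) hK).trans ?_
    apply mul_le_mul_of_nonneg_right _ (by positivity)
    apply pow_le_pow_left₀ (by positivity)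
    have h3 : (2 : ℝ) * K * (P + 1) ^ 2 ≤ 2 ^ m := by exact_mod_cast hm
    have h4 : (0 : ℝ) < 2 ^ m := by positivity
    rw [← mul_div_assoc, div_le_iff₀ h4]
    linarith
  have h3 := h1.trans (Finset.sum_le_sum h2)
  rw [Finset.sum_const, nsmul_eq_mul, card_univ] at h3
  have h4 : (0 : ℝ) < Fintype.card (Fin K → Fin (P + 1) → Fin (2 ^ m)) := by
    rw [Nat.cast_pos, Fintype.card_pos_iff]
    exact ⟨fun _ _ => ⟨0, Nat.two_pow_pos m⟩⟩
  have h5 : (((range (l + 1)).biUnion strsOf).card : ℝ) ≤ 2 ^ (l + 1) := by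
    exact_mod_cast card_adv l
  have h6 : (2 : ℝ) ^ (l + 1) * (1 / 2) ^ (l + 2) = 1 / 2 := by
    rw [pow_succ (1 / 2 : ℝ) (l + 1), ← mul_assoc, ← mul_pow]
    norm_num
  have h7 : (((range (l + 1)).biUnion strsOf).card : ℝ) * ((1 / 2) ^ (l + 2) *
      Fintype.card (Fin K → Fin (P + 1) → Fin (2 ^ m))) ≤
      1 / 2 * Fintype.card (Fin K → Fin (P + 1) → Fin (2 ^ m)) := by
    rw [← mul_assoc]
    apply mul_le_mul_of_nonneg_right _ h4.le
    have h8 : (0 : ℝ) ≤ (1 / 2) ^ (l + 2) := by positivity
    exact (mul_le_mul_of_nonneg_right h5 h8).trans (le_of_eq h6)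
  linarith

end Pool.Agent.TH93.NL
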