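import Pool.Agent.TH93.NL.Defs
import Pool.Agent.TH678.EL.Line2
import Pool.Agent.H620R2.GaugeR.R1

/-!
# Short instances with long padding
-/

set_option autoImplicit false

namespace Pool.Agent.TH93.NL

open Pool.Agent.NPC Pool.Agent.H620R2.Gauge Pool.Agent.H622R2 Pool.Agent.TH678.EL

/-- the padded version of a function -/
def pf (F : List Bool → List Bool) (z : List Bool) : List Bool :=
  if (unpair z).1.drop (unpair (unpair z).2).1.length =
      List.replicate ((unpair z).1.length - (unpair (unpair z).2).1.length) false then
    F (pairBits ((unpair z).1.take (unpair (unpair z).2).1.length) (unpair (unpair z).2).1) ++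
      List.replicate ((unpair z).1.length - (unpair (unpair z).2).1.length) false
  else (unpair z).1

theorem pf_pair (F : List Bool → List Bool) (w x pad : List Bool) :
    pf F (pairBits w (pairBits x pad)) =
      if w.drop x.length = List.replicate (w.length - x.length) false then
        F (pairBits (w.take x.length) x) ++ List.replicate (w.length - x.length) false
      else w := by
  unfold pf
  simp only [unpair_pairBits]

theorem isFP_pf {A : Oracle} {F : List Bool → List Bool} (hF : IsFP A F) : IsFP A (pf F) := by
  have q1 : Poly (fun p : List Bool × List Bool => (unpair p.1).1) :=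
    Poly.fst (poly_unpair.comp (Poly.fst Poly.id))
  have q2 : Poly (fun p : List Bool × List Bool => (unpair (unpair p.1).2).1) :=
    Poly.fst (poly_unpair.comp (Poly.snd (poly_unpair.comp (Poly.fst Poly.id))))
  have r1 : Poly (fun p : List Bool × List Bool × List Bool => (unpair p.1).1) :=
    Poly.fst (poly_unpair.comp (Poly.fst Poly.id))
  have r2 : Poly (fun p : List Bool × List Bool × List Bool => (unpair (unpair p.1).2).1) :=
    Poly.fst (poly_unpair.comp (Poly.snd (poly_unpair.comp (Poly.fst Poly.id))))
  have r3 : Poly (fun p : List Bool × List Bool × List Bool =>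
      List.replicate ((unpair p.1).1.length - (unpair (unpair p.1).2).1.length) false) :=
    poly_rep (UPoly.of_le (Poly.sub (Poly.length r1) (Poly.length r2)) (UPoly.length r1)
      (fun _ => Nat.sub_le _ _)) false
  exact IsFP.seq (F := fun z => z) (G := F)
    (φ := fun p => pairBits ((unpair p.1).1.take (unpair (unpair p.1).2).1.length)
      (unpair (unpair p.1).2).1)
    (ψ := fun p => if (unpair p.1).1.drop (unpair (unpair p.1).2).1.length =
      List.replicate ((unpair p.1).1.length - (unpair (unpair p.1).2).1.length) false then
      p.2.2 ++ List.replicate ((unpair p.1).1.length - (unpair (unpair p.1).2).1.length) false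
      else (unpair p.1).1) (IsFP.of_poly Poly.id) hF
    (poly_pairBits (R1.poly_take q1 (UPoly.length q2)) q2)
    (Poly.ite (Poly.decide_eq (p_drop r1 (UPoly.length r2)) r3)
      (Poly.append (Poly.snd (Poly.snd Poly.id)) r3) r1)

theorem pf_ext (F : List Bool → List Bool) {v x : List Bool} (pad : List Bool) {k : ℕ}
    (hv : v.length = x.length) :
    pf F (pairBits (v ++ List.replicate k false) (pairBits x pad)) =
      F (pairBits v x) ++ List.replicate k false := by
  rw [pf_pair]
  have h1 : (v ++ List.replicate k false).length - x.length = k := by
    rw [List.length_append, List.length_replicate, hv]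
    omega
  have h2 : (v ++ List.replicate k false).drop x.length = List.replicate k false := by
    rw [List.drop_append_of_le_length (by omega), List.drop_of_length_le (by omega),
      List.nil_append]
  have h3 : (v ++ List.replicate k false).take x.length = v := by
    rw [List.take_append_of_le_length (by omega), List.take_of_length_le (by omega)]
  rw [h1, h2, h3, if_pos rfl]

/-- **Lines remain lines.** -/
theorem isLine_pf {S P : List Bool → List Bool} {n H : ℕ} {x : List Bool} (pad : List Bool)
    {L m : ℕ} {v : ℕ → List Bool} (hx : x.length = n) (hH : n ≤ H)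
    (h : IsLine S P n x L m v) :
    IsLine (pf S) (pf P) H (pairBits x pad) L m
      (fun i => v i ++ List.replicate (H - n) false) := by
  obtain ⟨h1, h2, h3, h4, h5, h6, h7, h8⟩ := h
  have hv : ∀ i ≤ L, (v i).length = x.length := fun i hi => by rw [hx]; exact (h4 i hi).1
  refine ⟨h1, h2, ?_, ?_, ?_, ?_, ?_, ?_⟩
  · dsimp only
    rw [h3]
    unfold zero
    rw [List.replicate_append_replicate]
    congr 1
    omega
  · intro i hi
    refine ⟨?_, fun j hj => ?_⟩
    · rw [List.length_append, (h4 i hi).1, List.length_replicate]
      omega
    · have h9 := (h4 i hi).2 j hj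
      have h10 : j < (v i).length := by
        by_contra hno
        rw [List.getElem?_eq_none (by omega)] at h9
        exact absurd h9 (by simp)
      rw [List.getElem?_append_left h10]
      exact h9
  · dsimp only
    rw [pf_ext P pad (hv 0 (Nat.zero_le _)), h5]
  · dsimp only
    rw [pf_ext S pad (hv L le_rfl), h6]
  · intro i hi
    dsimp only
    rw [pf_ext S pad (hv i hi.le), pf_ext P pad (hv (i + 1) hi), (h7 i hi).1, (h7 i hi).2]
    exact ⟨rfl, rfl⟩
  · intro w hw hne
    rw [pf_pair, pf_pair]
    by_cases hc : w.drop x.length = List.replicate (w.length - x.length) false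
    · rw [if_pos hc, if_pos hc, ← hc]
      have h9 : (w.take x.length).length = n := by
        rw [List.length_take, hx, hw]
        omega
      have h10 : ∀ i ≤ L, w.take x.length ≠ v i := by
        intro i hi he
        apply hne i hi
        dsimp only
        rw [← he]
        have h11 : List.replicate (H - n) false = w.drop x.length := by
          rw [hc, hw, hx]
        rw [h11, List.take_append_drop]
      obtain ⟨e1, e2⟩ := h8 _ h9 h10
      rw [e1, e2, List.take_append_drop]
      exact ⟨rfl, rfl⟩
    · rw [if_neg hc, if_neg hc]
      exact ⟨rfl, rfl⟩

end Pool.Agent.TH93.NL
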