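import Pool.Agent.TH93.NL.Defs
import Pool.Agent.TH93.GL.Up
import Pool.Agent.TH678.EL.Line2
import Pool.Agent.H620R2.GaugeR.R1

/-!
# Walks of polynomial length
-/

set_option autoImplicit false

namespace Pool.Agent.TH93.NL

open Pool.Agent.NPC Pool.Agent.H620R2.Gauge Pool.Agent.H622R2 Pool.Agent.TH678.EL
open Pool.Agent.TH93.GL

theorem walk_succ (S : List Bool → List Bool) (n : ℕ) (x : List Bool) (i : ℕ) :
    walk S n x (i + 1) = S (pairBits (walk S n x i) x) := by
  unfold walk
  rw [Function.iterate_succ_apply']

theorem zero_length (n : ℕ) : (zero n).length = n := List.length_replicate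

theorem walk_length {S P : List Bool → List Bool} {n : ℕ} {x : List Bool}
    (h : Promised S P n x) (i : ℕ) : (walk S n x i).length = n := by
  induction i with
  | zero => exact zero_length n
  | succ i ih =>
    rw [walk_succ]
    exact (h.1 _ ih).1

/-- the walk reaches a solution -/
theorem walk_sol {S P : List Bool → List Bool} {n : ℕ} {x : List Bool}
    (h : Promised S P n x) : ∃ i ≤ 2 ^ n, Solves S P n x (walk S n x i) := by
  classical
  by_contra hno
  push Not at hno
  have h1 : ∀ i ≤ 2 ^ n, P (pairBits (walk S n x (i + 1)) x) = walk S n x i := by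
    intro i hi
    by_contra h2
    apply hno i hi
    refine ⟨walk_length h i, Or.inl ?_⟩
    rw [← walk_succ S n x i]
    exact h2
  have h0 : walk S n x 0 = zero n := rfl
  have hz : ∀ d, d < 2 ^ n → walk S n x (d + 1) ≠ zero n := by
    intro d
    induction d with
    | zero =>
      intro _
      rw [walk_succ, h0]
      exact h.2.2
    | succ d ih =>
      intro hd h2
      have h3 := h1 (d + 1) (by omega)
      rw [h2, h.2.1] at h3
      exact ih (by omega) h3.symm
  have hinj : ∀ i j : ℕ, i < j → j ≤ 2 ^ n → walk S n x i ≠ walk S n x j := by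
    intro i
    induction i with
    | zero =>
      intro j hj hj2 h2
      obtain ⟨d, rfl⟩ : ∃ d, j = d + 1 := ⟨j - 1, by omega⟩
      exact hz d (by omega) h2.symm
    | succ i ih =>
      intro j hj hj2 h2
      obtain ⟨d, rfl⟩ : ∃ d, j = d + 1 := ⟨j - 1, by omega⟩
      refine ih d (by omega) (by omega) ?_
      rw [← h1 i (by omega), ← h1 d (by omega), h2]
  have hcard : (strsOf n).card < (Finset.range (2 ^ n + 1)).card := by
    rw [Finset.card_range]
    have := card_strsOf n
    omega
  obtain ⟨i, hi, j, hj, hij, he⟩ := Finset.exists_ne_map_eq_of_card_lt_of_maps_to hcard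
    (f := fun i => walk S n x i) (fun i _ => by
      have h2 := mem_strsOf (walk S n x i)
      rwa [walk_length h i] at h2)
  rw [Finset.mem_range] at hi hj
  rcases lt_or_gt_of_ne hij with hl | hl
  · exact hinj i j hl (by omega) he
  · exact hinj j i hl (by omega) he.symm

/-- one step of the walk, if the present vertex is not a solution -/
def stp (r : ℕ → ℕ) (S P : List Bool → List Bool) (z : List Bool) : List Bool :=
  pairBits (if P (pairBits (S z) (unpair z).2) = (unpair z).1 then
    (S z).take (r (unpair z).2.length) else (unpair z).1) (unpair z).2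

theorem upoly_nice {r : ℕ → ℕ} (hr : NiceT (fun n => n) r) {α : Type} [TEnc α]
    {x : α → List Bool} (hx : Poly x) : UPoly (fun a => r (x a).length) := by
  obtain ⟨F, hF, hFx⟩ := hr
  have h1 : Poly (fun a => F (pairBits (List.replicate (x a).length true) (x a))) :=
    (poly_of_polyTime hF).comp (poly_pairBits (poly_rep (UPoly.length hx) true) hx)
  have h2 := UPoly.length h1
  refine h2.congr fun a => ?_
  have h3 := hFx (x a)
  dsimp only at h3 ⊢
  rw [h3, List.length_replicate]

theorem isFP_stp {A : Oracle} {r : ℕ → ℕ} (hr : NiceT (fun n => n) r)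
    {S P : List Bool → List Bool} (hS : IsFP A S) (hP : IsFP A P) : IsFP A (stp r S P) := by
  have hz : Poly (fun p : List Bool × List Bool × List Bool => unpair p.1) :=
    poly_unpair.comp (Poly.fst Poly.id)
  have hz' : Poly (fun p : List Bool × List Bool => (unpair p.1).2) :=
    Poly.snd (poly_unpair.comp (Poly.fst Poly.id))
  exact IsFP.seq hS hP
    (φ := fun p => pairBits p.2 (unpair p.1).2)
    (ψ := fun p => pairBits (if p.2.2 = (unpair p.1).1 then
      p.2.1.take (r (unpair p.1).2.length) else (unpair p.1).1) (unpair p.1).2)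
    (poly_pairBits (Poly.snd Poly.id) hz')
    (poly_pairBits (Poly.ite (Poly.decide_eq (Poly.snd (Poly.snd Poly.id)) (Poly.fst hz))
      (R1.poly_take (Poly.fst (Poly.snd Poly.id)) (upoly_nice hr (Poly.snd hz)))
      (Poly.fst hz)) (Poly.snd hz))

theorem stp_pair (r : ℕ → ℕ) (S P : List Bool → List Bool) (v x : List Bool) :
    stp r S P (pairBits v x) = pairBits (if P (pairBits (S (pairBits v x)) x) = v then
      (S (pairBits v x)).take (r x.length) else v) x := by
  unfold stp
  rw [unpair_pairBits]

theorem stp_len (r : ℕ → ℕ) (S P : List Bool → List Bool) (x : List Bool) (i : ℕ) :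
    ∃ v : List Bool, v.length ≤ r x.length ∧
      (stp r S P)^[i] (pairBits (zero (r x.length)) x) = pairBits v x := by
  induction i with
  | zero => exact ⟨_, (zero_length _).le, rfl⟩
  | succ i ih =>
    obtain ⟨v, hv, h⟩ := ih
    rw [Function.iterate_succ_apply', h, stp_pair]
    refine ⟨_, ?_, rfl⟩
    split_ifs
    · exact List.length_take_le _ _
    · exact hv

theorem pow_bound {g : ℕ → ℕ} {c : ℕ} (hc : ∀ n, g n ≤ c * (Nat.log 2 n + 1)) (n : ℕ) :
    2 ^ g n ≤ ((2 * Polynomial.X + 2) ^ c : Polynomial ℕ).eval n := by
  simp only [Polynomial.eval_pow, Polynomial.eval_add, Polynomial.eval_mul, Polynomial.eval_X,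
    Polynomial.eval_ofNat]
  have h1 : 2 ^ (Nat.log 2 n + 1) ≤ 2 * n + 2 := by
    rcases Nat.eq_zero_or_pos n with rfl | hn
    · simp
    · have h2 := Nat.pow_log_le_self 2 (by omega : n ≠ 0)
      rw [pow_succ]
      omega
  calc 2 ^ g n ≤ 2 ^ (c * (Nat.log 2 n + 1)) := Nat.pow_le_pow_right (by norm_num) (hc n)
    _ = (2 ^ (Nat.log 2 n + 1)) ^ c := by rw [← pow_mul]; congr 1; ring
    _ ≤ _ := Nat.pow_le_pow_left h1 c

/-- **Walks of polynomial length are easy.** -/
theorem easyWalks {A : Oracle} {r h : ℕ → ℕ} (hr : NiceT (fun n => n) r)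
    (hh : ∃ c : ℕ, ∀ n, h n ≤ c * (Nat.log 2 n + 1)) : EasyWalks r h A := by
  classical
  intro S P hS hP
  obtain ⟨c, hc⟩ := hh
  obtain ⟨R, hR⟩ := hr.poly (fun n => le_rfl)
  set T : Polynomial ℕ := (2 * Polynomial.X + 2) ^ c with hT
  have hTl : ∀ n, 2 ^ h n ≤ T.eval n := fun n => pow_bound hc n
  refine ⟨fun x => (unpair ((stp r S P)^[T.eval x.length]
    (pairBits (zero (r x.length)) x))).1, ?_, fun x hpr hex => ?_⟩
  · have h1 : Poly (fun x : List Bool => pairBits (zero (r x.length)) x) :=
      poly_pairBits (poly_rep (upoly_nice hr Poly.id) false) Poly.id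
    have h2 := IsFP.loop (isFP_stp hr hS hP) h1 T (Polynomial.C 2 * R + Polynomial.X + 1)
      (fun x i _ => by
        obtain ⟨v, hv, he⟩ := stp_len r S P x i
        rw [he, A2.length_pairBits]
        simp only [Polynomial.eval_add, Polynomial.eval_mul, Polynomial.eval_C,
          Polynomial.eval_X, Polynomial.eval_one]
        have := hR x.length
        omega)
    exact IsFP.comp (IsFP.of_poly (Poly.fst poly_unpair)) h2
  · set n := r x.length with hn
    -- the first bad vertex
    have hbad : ∃ j, P (pairBits (S (pairBits (walk S n x j) x)) x) ≠ walk S n x j := by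
      by_contra hno
      push Not at hno
      obtain ⟨i, _, hi⟩ := hex
      rcases hi.2 with h1 | ⟨h1, h2⟩
      · exact h1 (hno i)
      · cases i with
        | zero => exact h1 rfl
        | succ i =>
          apply h2
          have h3 := hno i
          rw [← walk_succ S n x i] at h3
          rw [h3, ← walk_succ S n x i]
    set j := Nat.find hbad with hj
    have hj1 := Nat.find_spec hbad
    rw [← hj] at hj1
    have hj2 : ∀ i < j, P (pairBits (S (pairBits (walk S n x i) x)) x) = walk S n x i := by
      intro i hi
      by_contra h1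
      exact Nat.find_min hbad hi h1
    have hjT : j ≤ T.eval x.length := by
      refine le_trans ?_ (hTl _)
      obtain ⟨i, hi, hs⟩ := hex
      by_contra hlt
      rcases hs.2 with h1 | ⟨h1, h2⟩
      · exact h1 (hj2 i (by omega))
      · cases i with
        | zero => exact h1 rfl
        | succ i =>
          apply h2
          have h3 := hj2 i (by omega)
          rw [← walk_succ S n x i] at h3
          rw [h3, ← walk_succ S n x i]
    have h1 : ∀ i ≤ j, (stp r S P)^[i] (pairBits (zero n) x) = pairBits (walk S n x i) x := by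
      intro i
      induction i with
      | zero => intro _; rfl
      | succ i ih =>
        intro hi
        rw [Function.iterate_succ_apply', ih (by omega), stp_pair, if_pos (hj2 i (by omega)),
          ← walk_succ S n x i, List.take_of_length_le (by rw [walk_length hpr])]
    have h2 : ∀ d, (stp r S P)^[d + j] (pairBits (zero n) x) = pairBits (walk S n x j) x := by
      intro d
      induction d with
      | zero => rw [Nat.zero_add]; exact h1 j le_rfl
      | succ d ih =>
        rw [Nat.succ_add, Function.iterate_succ_apply', ih, stp_pair, if_neg hj1]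
    have h3 := h2 (T.eval x.length - j)
    rw [Nat.sub_add_cancel hjT] at h3
    dsimp only
    rw [h3, unpair_pairBits]
    exact ⟨walk_length hpr j, Or.inl hj1⟩

end Pool.Agent.TH93.NL
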