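import Pool.Agent.TH93.NL.Low
import Pool.Agent.TH93.NL.Walk

/-!
# The construction of the oracle
-/

set_option autoImplicit false

namespace Pool.Agent.TH93.NL

open Pool.Agent.NPC Pool.Agent.H620R2.Gauge Pool.Agent.H622R2 Pool.Agent.TH678.EL
open Pool.Agent.TH93.GL
open Pool.Agent.TH678.PC (exists_np2 out_agree exists_exp_le pow_ev)

/-- **The general construction.** -/
theorem stages {W : ℕ → Oracle → Prop} (h : ∀ (j n₀ : ℕ) (A : Oracle),
    ∃ (A' : Oracle) (b : ℕ), (∀ y : List Bool, y.length < n₀ → A' y = A y) ∧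
      ∀ A'' : Oracle, (∀ y : List Bool, y.length < b → A'' y = A' y) → W j A'') :
    ∃ A : Oracle, ∀ j, W j A := by
  classical
  choose fA fb h1 h2 using h
  let st : ℕ → Oracle × ℕ := fun j => Nat.rec ((fun _ => false), 0)
    (fun j r => (fA j r.2 r.1, max (fb j r.2 r.1) (r.2 + 1))) j
  have hst : ∀ j, st (j + 1) = (fA j (st j).2 (st j).1,
      max (fb j (st j).2 (st j).1) ((st j).2 + 1)) := fun j => rfl
  have hb : ∀ j, (st j).2 + 1 ≤ (st (j + 1)).2 := by
    intro j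
    rw [hst]
    exact le_max_right _ _
  have hbj : ∀ j, j ≤ (st j).2 := by
    intro j
    induction j with
    | zero => exact Nat.zero_le _
    | succ j ih =>
      have := hb j
      omega
  have hbm : ∀ j d, (st j).2 ≤ (st (j + d)).2 := by
    intro j d
    induction d with
    | zero => exact le_rfl
    | succ d ih =>
      have := hb (j + d)
      rw [← Nat.add_assoc]
      omega
  have hag : ∀ j d, ∀ y : List Bool, y.length < (st j).2 → (st (j + d)).1 y = (st j).1 y := by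
    intro j d y hy
    induction d with
    | zero => rfl
    | succ d ih =>
      rw [← Nat.add_assoc, hst]
      dsimp only
      rw [h1 _ _ _ y (lt_of_lt_of_le hy (hbm j d)), ih]
  set A : Oracle := fun y => (st (y.length + 1)).1 y with hA
  have hAj : ∀ j, ∀ y : List Bool, y.length < (st j).2 → A y = (st j).1 y := by
    intro j y hy
    rw [hA]
    dsimp only
    rcases Nat.le_total (y.length + 1) j with hl | hl
    · obtain ⟨d, rfl⟩ := Nat.exists_eq_add_of_le hl
      have h3 := hbj (y.length + 1)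
      exact (hag (y.length + 1) d y (by omega)).symm
    · obtain ⟨d, hd⟩ := Nat.exists_eq_add_of_le hl
      rw [hd]
      exact hag j d y hy
  refine ⟨A, fun j => h2 j (st j).2 (st j).1 A (fun y hy => ?_)⟩
  have h3 := hAj (j + 1) y (by
    rw [hst]
    exact lt_of_lt_of_le hy (le_max_left _ _))
  rw [h3, hst]

theorem log_ev (C : ℕ) : ∃ N : ℕ, ∀ n ≥ N, C * (Nat.log 2 n + 1) ≤ n := by
  obtain ⟨N, hN⟩ := pow_ev (2 * C)
  refine ⟨N + 2, fun n hn => ?_⟩
  have h1 := hN n (by omega)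
  have h2 := Nat.pow_log_le_self 2 (by omega : n ≠ 0)
  have h3 : 2 ^ (2 * C * Nat.log 2 n) ≤ 2 ^ n := by
    calc 2 ^ (2 * C * Nat.log 2 n) = (2 ^ Nat.log 2 n) ^ (2 * C) := by
          rw [← pow_mul]; congr 1; ring
      _ ≤ n ^ (2 * C) := Nat.pow_le_pow_left h2 _
      _ ≤ 2 ^ n := h1
  have h4 := (Nat.pow_le_pow_iff_right (by norm_num : 1 < 2)).1 h3
  have h5 : 1 ≤ Nat.log 2 n := by
    have := Nat.log_mono_right (b := 2) (by omega : 2 ≤ n)
    have h6 : Nat.log 2 2 = 1 := by norm_num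
    omega
  have h6 : C * 1 ≤ C * Nat.log 2 n := Nat.mul_le_mul_left _ h5
  calc C * (Nat.log 2 n + 1) = C * Nat.log 2 n + C * 1 := by ring
    _ ≤ C * Nat.log 2 n + C * Nat.log 2 n := Nat.add_le_add_left h6 _
    _ = 2 * C * Nat.log 2 n := by ring
    _ ≤ n := h4

theorem large_of {h : ℕ → ℕ} (hh : ¬ ∃ c : ℕ, ∀ n, h n ≤ c * (Nat.log 2 n + 1)) (C N : ℕ) :
    ∃ n ≥ N, C * (Nat.log 2 n + 1) < h n := by
  by_contra hno
  push Not at hno
  apply hh
  refine ⟨C + (Finset.range N).sup h, fun n => ?_⟩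
  rcases Nat.lt_or_ge n N with hn | hn
  · have h1 : h n ≤ (Finset.range N).sup h := Finset.le_sup (Finset.mem_range.2 hn)
    calc h n ≤ (C + (Finset.range N).sup h) * 1 := by omega
      _ ≤ _ := Nat.mul_le_mul_left _ (by omega)
  · exact (hno n hn).trans (Nat.mul_le_mul_right _ (by omega))

theorem lbl_vx' {m : ℕ} {f : ℕ → ℕ} {i : ℕ} (r : List Bool) (hf : f i < 2 ^ m) :
    lbl m (vx m f i ++ r) = f i := by
  unfold lbl vx nm
  simp only [List.append_assoc]
  rw [List.drop_append_of_le_length (by rw [length_bitsOf]),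
    List.drop_of_length_le (by rw [length_bitsOf]), List.nil_append,
    List.take_append_of_le_length (by rw [length_bitsOf]),
    List.take_of_length_le (by rw [length_bitsOf]), valB_bitsOf m _ hf]

/-- the algorithm fails on some length with every advice -/
def Rq (M : Alg) (l : Polynomial ℕ) (h : ℕ → ℕ) (A : Oracle) : Prop :=
  ∃ n, ∀ α : List Bool, α.length ≤ l.eval n → ∃ x : List Bool, x.length = n ∧
    SingleLine (pf (SF A)) (pf (PF A)) (h n) x ∧
    ∀ w, M.out A (pairBits x α) = some w → ¬ Solves (pf (SF A)) (pf (PF A)) (h n) x w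

theorem forced (M : Alg) (l : Polynomial ℕ) {h : ℕ → ℕ}
    (hh : ¬ ∃ c : ℕ, ∀ n, h n ≤ c * (Nat.log 2 n + 1)) (n₀ : ℕ) (A : Oracle) :
    ∃ (A' : Oracle) (b : ℕ), (∀ y : List Bool, y.length < n₀ → A' y = A y) ∧
      ∀ A'' : Oracle, (∀ y : List Bool, y.length < b → A'' y = A' y) → Rq M l h A'' := by
  classical
  set Pp : Polynomial ℕ := M.p.comp (Polynomial.C 2 * Polynomial.X + l + 1) with hPp
  set Kp : Polynomial ℕ := (Polynomial.C 2 * Pp + 1) * (l + Polynomial.C 2) with hKp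
  set Qp : Polynomial ℕ := Polynomial.C 2 * Kp * (Pp + Polynomial.C 2) ^ 2 with hQp
  obtain ⟨e, n₁, he⟩ := exists_exp_le Qp
  obtain ⟨n₂, hn₂⟩ := log_ev (8 * e + 8 * n₀ + 5)
  obtain ⟨r, hr⟩ := out_agree M
  obtain ⟨n, hn, hnh⟩ := large_of hh (4 * e + 4 * n₀ + 2) (n₁ + n₂ + 1)
  obtain ⟨m, hm⟩ : ∃ m, m = e * (Nat.log 2 n + 1) + n₀ := ⟨_, rfl⟩
  have b1 := he n (by omega)
  have b2 : n ^ e ≤ 2 ^ m := by
    have h1 : n < 2 ^ (Nat.log 2 n + 1) := Nat.lt_pow_succ_log_self (by norm_num) n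
    calc n ^ e ≤ (2 ^ (Nat.log 2 n + 1)) ^ e := Nat.pow_le_pow_left h1.le e
      _ = 2 ^ (e * (Nat.log 2 n + 1)) := by rw [← pow_mul]; congr 1; ring
      _ ≤ 2 ^ m := Nat.pow_le_pow_right (by norm_num) (by omega)
  have hs1 : 1 ≤ Nat.log 2 n + 1 := by omega
  have b3 : 4 * m + 2 ≤ h n := by
    have h1 : n₀ ≤ n₀ * (Nat.log 2 n + 1) := Nat.le_mul_of_pos_right _ hs1
    have h2 : (4 * e + 4 * n₀ + 2) * (Nat.log 2 n + 1) = 4 * (e * (Nat.log 2 n + 1)) +
      4 * (n₀ * (Nat.log 2 n + 1)) + 2 * (Nat.log 2 n + 1) := by ring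
    omega
  have b4 : 8 * m + 5 ≤ n := by
    have h0 := hn₂ n (by omega)
    have h1 : n₀ ≤ n₀ * (Nat.log 2 n + 1) := Nat.le_mul_of_pos_right _ hs1
    have h2 : (8 * e + 8 * n₀ + 5) * (Nat.log 2 n + 1) = 8 * (e * (Nat.log 2 n + 1)) +
      8 * (n₀ * (Nat.log 2 n + 1)) + 5 * (Nat.log 2 n + 1) := by ring
    omega
  obtain ⟨lv, hlv⟩ : ∃ lv, lv = l.eval n := ⟨_, rfl⟩
  obtain ⟨P, hP⟩ : ∃ P, P = Pp.eval n := ⟨_, rfl⟩
  obtain ⟨K, hK⟩ : ∃ K, K = (2 * P + 1) * (lv + 2) := ⟨_, rfl⟩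
  have hQ : Qp.eval n = 2 * K * (P + 2) ^ 2 := by
    rw [hQp, hKp]
    simp only [Polynomial.eval_add, Polynomial.eval_mul, Polynomial.eval_C,
      Polynomial.eval_one, Polynomial.eval_pow]
    rw [← hlv, ← hP, ← hK]
  rw [hQ] at b1
  have hK1 : 1 ≤ K := by
    rw [hK]
    exact Nat.one_le_iff_ne_zero.2 (Nat.mul_ne_zero (by omega) (by omega))
  have c2 : 2 * K * (P + 2) ^ 2 ≤ 2 ^ m := b1.trans b2
  have c3 : 2 * K * (P + 1) ^ 2 ≤ 2 ^ m :=
    le_trans (Nat.mul_le_mul_left _ (Nat.pow_le_pow_left (by omega) 2)) c2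
  have c4 : K ≤ 2 ^ m := by
    have : 1 ≤ (P + 1) ^ 2 := Nat.one_le_pow _ _ (by omega)
    nlinarith
  have c5 : P + 1 < 2 ^ m := by
    have h1 : (P + 2) ^ 2 ≤ 2 * K * (P + 2) ^ 2 := Nat.le_mul_of_pos_left _ (by omega)
    have h2 : P + 2 ≤ (P + 2) ^ 2 := Nat.le_self_pow (by norm_num) _
    omega
  choose c hc1 hc2 using fun k => exists_key A m (bitsOf m k)
  set pad : List Bool := List.replicate (n - (8 * m + 5)) false with hpad
  set X : ℕ → List Bool := fun k => pairBits (xk m c k) pad with hX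
  have hXl : ∀ k, (X k).length = n := by
    intro k
    rw [hX]
    dsimp only
    rw [A2.length_pairBits, xk_length (hc1 _), hpad, List.length_replicate]
    omega
  obtain ⟨x, hx⟩ := exists_x M A c (m := m) (K := K) (P := P) (l := lv)
    (fun k α => pairBits (X k) α) (by rw [hK]) c3
  set A' : Oracle := chg A m K c (labK x) (fun _ => P + 1) with hA'
  have hPN : P = M.p.eval (2 * n + lv + 1) := by
    rw [hP, hPp, Polynomial.eval_comp]
    simp only [Polynomial.eval_add, Polynomial.eval_mul, Polynomial.eval_C, Polynomial.eval_one,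
      Polynomial.eval_X]
    rw [← hlv]
  refine ⟨A', r.eval (2 * n + lv + 1) + 9 * m + 1, fun y hy => ?_, fun A'' hA'' => ?_⟩
  · apply chg_not
    intro h
    have := h.1
    omega
  · refine ⟨n, fun α hα => ?_⟩
    rw [← hlv] at hα
    obtain ⟨k, hk⟩ := hx α hα
    have hxl : (xk m c k.val).length = 4 * m + 2 := xk_length (hc1 _)
    have e1 : (unpair (xk m c k.val)).1 = bitsOf m k.val := by unfold xk; rw [unpair_pairBits]
    have hline := isLine (A := A) (t := fun _ => P + 1) (f := labK x) (c := c) k.isLt c4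
      (hc1 _) (hc2 k.val) (Nat.succ_pos P) c5
      (by rw [labK_eq]; unfold labF; rw [dif_neg (by omega)])
      (fun i => by rw [labK_eq]; exact labF_lt _ _)
    rw [← hA'] at hline
    have hloc := SF_local (A := A') (A' := A'') (x := xk m c k.val) (by
      intro y hy
      rw [e1, length_bitsOf] at hy
      exact hA'' y (by omega))
    have hline' := isLine_pf pad hxl b3 (hline.congr (S' := SF A'') (P' := PF A'')
      (fun w => (hloc w).1) (fun w => (hloc w).2))
    refine ⟨X k.val, hXl _, hline'.single, fun w hw hsol => ?_⟩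
    have h1 := hline'.sol hsol
    have h2 : M.out A'' (pairBits (X k.val) α) = M.out A' (pairBits (X k.val) α) := by
      apply hr
      intro y hy
      apply hA''
      rw [A2.length_pairBits, hXl] at hy
      have h3 : r.eval (2 * n + α.length + 1) ≤ r.eval (2 * n + lv + 1) := eval_mono _ (by omega)
      omega
    rw [h2] at hw
    apply hk
    have h3 : M.p.eval (pairBits (X k.val) α).length ≤ P := by
      rw [hPN, A2.length_pairBits, hXl]
      exact eval_mono _ (by omega)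
    have h4 := M.run_mono A' _ w _ P [] h3 hw
    refine ⟨w, h4, ?_⟩
    rw [h1, lbl_vx' _ (by rw [labK_eq]; exact labF_lt _ _), labK_eq]

/-- **Slightly longer names make End-of-Line hard.** -/
theorem exists_hard : ∃ A : Oracle, ∀ h : ℕ → ℕ, NiceT (fun n => n) h →
    (¬ ∃ c : ℕ, ∀ n, h n ≤ c * (Nat.log 2 n + 1)) → ¬ EasyLines h A := by
  obtain ⟨np, hnp⟩ := exists_np2
  have hne : {g : ℕ → ℕ | NiceT (fun n => n) g}.Nonempty ∨
      ¬ {g : ℕ → ℕ | NiceT (fun n => n) g}.Nonempty := em _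
  rcases hne with hne | hne
  · obtain ⟨hs, hhs⟩ := (countable_niceT (fun n => n)).exists_eq_range hne
    obtain ⟨A, hA⟩ := stages (W := fun j A =>
      (¬ ∃ c : ℕ, ∀ n, hs j.unpair.2 n ≤ c * (Nat.log 2 n + 1)) →
        Rq (np j.unpair.1).1.1 (np j.unpair.1).2 (hs j.unpair.2) A) (by
      intro j n₀ A
      by_cases hh : ∃ c : ℕ, ∀ n, hs j.unpair.2 n ≤ c * (Nat.log 2 n + 1)
      · exact ⟨A, 0, fun y _ => rfl, fun A'' _ h => absurd hh h⟩
      · obtain ⟨A', b, h1, h2⟩ := forced (np j.unpair.1).1.1 (np j.unpair.1).2 hh n₀ A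
        exact ⟨A', b, h1, fun A'' h3 _ => h2 A'' h3⟩)
    refine ⟨A, fun h hh hcon hE => ?_⟩
    obtain ⟨f, a, p, ⟨M, hM⟩, ha, hf⟩ := hE _ _ (isFP_pf (isFP_SF A)) (isFP_pf (isFP_PF A))
    obtain ⟨i, hi⟩ := hnp ((M, 0), p)
    have h1 : h ∈ Set.range hs := by
      rw [← hhs]
      exact hh
    obtain ⟨k, hk⟩ := h1
    have h2 := hA (Nat.pair i k)
    rw [Nat.unpair_pair] at h2
    dsimp only at h2
    rw [hk, hi] at h2
    obtain ⟨n, hn⟩ := h2 hcon
    obtain ⟨x, hx, hx1, hx2⟩ := hn (a n) (ha n)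
    subst hx
    exact hx2 _ (hM _) (hf x hx1)
  · exact ⟨fun _ => false, fun h hh => absurd ⟨h, hh⟩ hne⟩

/-- **The law.** -/
theorem law : ∃ A : Oracle, ∀ h : ℕ → ℕ, NiceT (fun n => n) h → List.TFAE [
    ∃ c : ℕ, ∀ n, h n ≤ c * (Nat.log 2 n + 1),
    EasyNames h A,
    ∀ r : ℕ → ℕ, NiceT (fun n => n) r → EasyWalks r h A,
    EasyLines h A] := by
  obtain ⟨A, hA⟩ := exists_hard
  refine ⟨A, fun h hh => ?_⟩
  tfae_have 1 → 3 := fun hc r hr => easyWalks hr hc
  tfae_have 3 → 2 := by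
    intro h3 S P hS hP
    obtain ⟨f, hf, hfx⟩ := h3 h hh S P hS hP
    exact ⟨f, hf, fun x hx => hfx x hx (walk_sol hx)⟩
  tfae_have 2 → 4 := by
    intro h2 S P hS hP
    obtain ⟨f, hf, hfx⟩ := h2 S P hS hP
    refine ⟨fun z => f (unpair z).1, fun _ => [], 0,
      IsFP.comp hf (IsFP.of_poly (Poly.fst poly_unpair)), fun n => Nat.zero_le _, fun x hx => ?_⟩
    dsimp only
    rw [unpair_pairBits]
    apply hfx
    obtain ⟨L, m, v, hl⟩ := hx
    exact IsLine.promised (L := L) (m := m) (v := v) hl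
  tfae_have 4 → 1 := by
    intro h4
    by_contra hcon
    exact hA h hh hcon h4
  tfae_finish

end Pool.Agent.TH93.NL
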